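import Mathlib

/-!
# Even quartic Liénard systems have a global analytic first integral
-/

set_option autoImplicit false

open Filter Topology

namespace Pool.Agent.Results.MP_b09cb0_an.QuarticLienard

/-! ### Entire power series with real coefficients -/

/-- All the series of absolute values converge. -/
def Ent (c : ℕ → ℝ) : Prop := ∀ r : ℝ, 0 ≤ r → Summable fun n => |c n| * r ^ n

/-- The sum of the power series. -/
noncomputable def F (c : ℕ → ℝ) (y : ℝ) : ℝ := ∑' n, c n * y ^ n

/-- The coefficients of the derivative. -/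
def dc (c : ℕ → ℝ) (n : ℕ) : ℝ := (n + 1) * c (n + 1)

lemma Ent.dc {c : ℕ → ℝ} (hc : Ent c) : Ent (dc c) := by
  intro r hr
  have h1 := hc (2 * (r + 1)) (by positivity)
  have h2 := (summable_nat_add_iff 1).2 h1
  refine Summable.of_nonneg_of_le (fun n => by positivity) (fun n => ?_) h2
  rw [QuarticLienard.dc, abs_mul, abs_of_nonneg (by positivity : (0:ℝ) ≤ (n:ℝ) + 1)]
  have h3 : ((n : ℝ) + 1) ≤ 2 ^ (n + 1) := by
    have := Nat.lt_two_pow_self (n := n + 1)
    exact_mod_cast this.le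
  have h4 : r ^ n ≤ (r + 1) ^ (n + 1) := by
    calc r ^ n ≤ (r + 1) ^ n := by gcongr; linarith
      _ ≤ (r + 1) ^ (n + 1) := pow_le_pow_right₀ (by linarith) (by omega)
  calc ((n : ℝ) + 1) * |c (n + 1)| * r ^ n ≤ 2 ^ (n + 1) * |c (n + 1)| * (r + 1) ^ (n + 1) := by
        gcongr
    _ = |c (n + 1)| * (2 * (r + 1)) ^ (n + 1) := by rw [mul_pow]; ring

lemma Ent.summable {c : ℕ → ℝ} (hc : Ent c) (y : ℝ) : Summable fun n => c n * y ^ n := by
  refine Summable.of_norm ?_
  have := hc |y| (abs_nonneg y)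
  simpa [abs_mul, abs_pow] using this

lemma Ent.hasDerivAt {c : ℕ → ℝ} (hc : Ent c) (y : ℝ) :
    HasDerivAt (F c) (F (QuarticLienard.dc c) y) y := by
  have hR : y ∈ Metric.ball (0:ℝ) (|y| + 1) := by
    rw [Metric.mem_ball, dist_zero_right, Real.norm_eq_abs]; linarith
  have h0 : (0:ℝ) ∈ Metric.ball (0:ℝ) (|y| + 1) := by
    rw [Metric.mem_ball, dist_self]; positivity
  have hu : Summable fun n : ℕ => |c n| * ((n : ℝ) * (|y| + 1) ^ (n - 1)) := by
    rw [← summable_nat_add_iff 1]
    have := hc.dc (|y| + 1) (by positivity)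
    refine this.congr fun n => ?_
    rw [QuarticLienard.dc, abs_mul, abs_of_nonneg (by positivity : (0:ℝ) ≤ (n:ℝ) + 1),
      Nat.add_sub_cancel]
    push_cast
    ring
  have h1 := hasDerivAt_tsum_of_isPreconnected (g := fun n y => c n * y ^ n)
    (g' := fun n y => c n * ((n : ℝ) * y ^ (n - 1))) hu Metric.isOpen_ball
    (convex_ball (0:ℝ) (|y| + 1)).isPreconnected
    (fun n z _ => (hasDerivAt_pow n z).const_mul (c n))
    (fun n z hz => by
      rw [norm_mul, norm_mul, norm_pow, Real.norm_eq_abs, Real.norm_eq_abs, Real.norm_eq_abs,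
        abs_of_nonneg (by positivity : (0:ℝ) ≤ (n:ℝ))]
      rw [Metric.mem_ball, dist_zero_right, Real.norm_eq_abs] at hz
      gcongr)
    h0 (hc.summable 0) hR
  refine h1.congr_deriv ?_
  have hs : Summable fun n : ℕ => c n * ((n : ℝ) * y ^ (n - 1)) := by
    refine Summable.of_norm_bounded hu fun n => ?_
    rw [norm_mul, norm_mul, norm_pow, Real.norm_eq_abs, Real.norm_eq_abs, Real.norm_eq_abs,
        abs_of_nonneg (by positivity : (0:ℝ) ≤ (n:ℝ))]
    gcongr
    linarith
  rw [hs.tsum_eq_zero_add]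
  simp only [Nat.cast_zero, zero_mul, mul_zero, zero_add]
  refine tsum_congr fun n => ?_
  rw [QuarticLienard.dc, Nat.add_sub_cancel]
  push_cast
  ring

lemma Ent.analytic {c : ℕ → ℝ} (hc : Ent c) : AnalyticOnNhd ℝ (F c) Set.univ := by
  set p := FormalMultilinearSeries.ofScalars ℝ c with hp
  have hr : p.radius = ⊤ := by
    refine FormalMultilinearSeries.radius_eq_top_of_summable_norm _ fun r => ?_
    have := hc r r.2
    refine this.congr fun n => ?_
    rw [hp, FormalMultilinearSeries.ofScalars_norm, Real.norm_eq_abs]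
  have h1 := p.hasFPowerSeriesOnBall (by rw [hr]; exact ENNReal.zero_lt_top)
  have h2 : p.sum = F c := by
    funext y
    rw [FormalMultilinearSeries.sum]
    simp only [hp, FormalMultilinearSeries.ofScalars_apply_eq, F, smul_eq_mul]
  rw [h2, hr] at h1
  have h3 := h1.analyticOnNhd
  rwa [Metric.eball_top] at h3

/-! ### The equation `w'' = 4 s w` -/

/-- The Taylor coefficients of the solution of `w'' = 4 s w` with `w(0) = a`, `w'(0) = b`. -/
noncomputable def co (a b : ℝ) : ℕ → ℝ
  | 0 => a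
  | 1 => b
  | 2 => 0
  | n + 3 => 4 * co a b n / ((n + 3) * (n + 2))

lemma co_ent (a b : ℝ) : Ent (co a b) := by
  intro r hr
  set R : ℝ := 2 * r + 1 with hR
  have hR0 : 0 < R := by positivity
  obtain ⟨N, hN⟩ := exists_nat_ge (4 * R ^ 3)
  set K : ℝ := ∑ i ∈ Finset.range (N + 3), |co a b i| * R ^ i with hK
  have hbd : ∀ n, |co a b n| * R ^ n ≤ K := by
    intro n
    induction n using Nat.strong_induction_on with
    | _ n ih =>
      rcases lt_or_ge n (N + 3) with h | h
      · exact Finset.single_le_sum (f := fun i => |co a b i| * R ^ i)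
          (fun i _ => by positivity) (Finset.mem_range.2 h)
      · obtain ⟨m, rfl⟩ := Nat.exists_eq_add_of_le' (show 3 ≤ n by omega)
        have h1 := ih m (by omega)
        refine le_trans ?_ h1
        have hm : (N : ℝ) ≤ m := by exact_mod_cast (by omega : N ≤ m)
        have hden : 0 < ((m : ℝ) + 3) * (m + 2) := by positivity
        have e : |co a b (m + 3)| * R ^ (m + 3) =
            (|co a b m| * R ^ m) * (4 * R ^ 3 / (((m : ℝ) + 3) * (m + 2))) := by
          rw [co, abs_div, abs_mul, abs_of_pos hden, abs_of_pos (by norm_num : (0:ℝ) < 4)]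
          ring
        rw [e]
        have h2 : 4 * R ^ 3 / (((m : ℝ) + 3) * (m + 2)) ≤ 1 := by
          rw [div_le_one hden]
          nlinarith
        calc _ ≤ (|co a b m| * R ^ m) * 1 := by gcongr
          _ = _ := mul_one _
  have hgeo : Summable fun n : ℕ => K * (1 / 2 : ℝ) ^ n :=
    (summable_geometric_of_lt_one (by norm_num) (by norm_num)).mul_left K
  refine Summable.of_nonneg_of_le (fun n => by positivity) (fun n => ?_) hgeo
  have h1 := hbd n
  have h2 : r ^ n ≤ R ^ n * (1 / 2) ^ n := by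
    rw [← mul_pow]
    gcongr
    linarith
  calc |co a b n| * r ^ n ≤ |co a b n| * (R ^ n * (1 / 2) ^ n) := by gcongr
    _ = (|co a b n| * R ^ n) * (1 / 2) ^ n := by ring
    _ ≤ K * (1 / 2) ^ n := by gcongr

lemma co_eq (a b y : ℝ) : F (dc (dc (co a b))) y = 4 * y * F (co a b) y := by
  have hs := ((co_ent a b).dc.dc).summable y
  unfold F
  rw [hs.tsum_eq_zero_add, ← tsum_mul_left]
  have h0 : dc (dc (co a b)) 0 = 0 := by
    simp [dc, co]
  rw [h0, zero_mul, zero_add]
  refine tsum_congr fun n => ?_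
  have h1 : dc (dc (co a b)) (n + 1) = 4 * co a b n := by
    simp only [dc]
    rw [show n + 1 + 1 + 1 = n + 3 from rfl, co]
    push_cast
    field_simp
    ring
  rw [h1]; ring

lemma F_zero (c : ℕ → ℝ) : F c 0 = c 0 := by
  unfold F
  rw [tsum_eq_single 0 (fun n hn => by rw [zero_pow hn, mul_zero])]
  simp

/-- A solution `W` of `W'' = 4 s W` with its derivative. -/
lemma exists_sol (a b : ℝ) : ∃ W W' : ℝ → ℝ, AnalyticOnNhd ℝ W Set.univ ∧
    AnalyticOnNhd ℝ W' Set.univ ∧ (∀ s, HasDerivAt W (W' s) s) ∧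
    (∀ s, HasDerivAt W' (4 * s * W s) s) ∧ W 0 = a ∧ W' 0 = b := by
  refine ⟨F (co a b), F (dc (co a b)), (co_ent a b).analytic, (co_ent a b).dc.analytic,
    (co_ent a b).hasDerivAt, fun s => ?_, ?_, ?_⟩
  · rw [← co_eq]
    exact (co_ent a b).dc.hasDerivAt s
  · rw [F_zero]; rfl
  · rw [F_zero]; simp [dc, co]

/-- A pair of analytic solutions of `w'' = (4 a y + b² - 4 a c) w` with Wronskian nonzero
everywhere. -/
lemma exists_pair {a : ℝ} (ha : a ≠ 0) (b c : ℝ) : ∃ A A' B B' : ℝ → ℝ,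
    AnalyticOnNhd ℝ A Set.univ ∧ AnalyticOnNhd ℝ A' Set.univ ∧
    AnalyticOnNhd ℝ B Set.univ ∧ AnalyticOnNhd ℝ B' Set.univ ∧
    (∀ y, HasDerivAt A (A' y) y) ∧ (∀ y, HasDerivAt A' ((4 * a * y + b ^ 2 - 4 * a * c) * A y) y) ∧
    (∀ y, HasDerivAt B (B' y) y) ∧ (∀ y, HasDerivAt B' ((4 * a * y + b ^ 2 - 4 * a * c) * B y) y) ∧
    (∀ y, A y * B' y - A' y * B y ≠ 0) ∧ ∃ y, A y = 1 ∧ A' y = 0 ∧ B y = 0 ∧ B' y ≠ 0 := by
  obtain ⟨α, hα⟩ : ∃ α : ℝ, α ^ 3 = a := by
    have hroot : ∀ u : ℝ, 0 ≤ u → ∃ α : ℝ, α ^ 3 = u := by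
      intro u hu
      refine ⟨u ^ (1 / 3 : ℝ), ?_⟩
      rw [← Real.rpow_natCast, ← Real.rpow_mul hu]
      norm_num
    rcases le_total 0 a with h | h
    · exact hroot a h
    · obtain ⟨α, hα⟩ := hroot (-a) (by linarith)
      exact ⟨-α, by rw [Odd.neg_pow (by decide), hα, neg_neg]⟩
  have hα0 : α ≠ 0 := by
    rintro rfl
    apply ha
    rw [← hα]; norm_num
  set β : ℝ := (b ^ 2 - 4 * a * c) / (4 * α ^ 2) with hβ
  have hlin : ∀ y, α * (4 * (α * y + β)) * α = 4 * a * y + b ^ 2 - 4 * a * c := by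
    intro y
    have : 4 * α ^ 2 * β = b ^ 2 - 4 * a * c := by rw [hβ]; field_simp
    rw [← hα] at this ⊢
    linear_combination this
  have key : ∀ W W' : ℝ → ℝ, AnalyticOnNhd ℝ W Set.univ → AnalyticOnNhd ℝ W' Set.univ →
      (∀ s, HasDerivAt W (W' s) s) → (∀ s, HasDerivAt W' (4 * s * W s) s) →
      AnalyticOnNhd ℝ (fun y => W (α * y + β)) Set.univ ∧
      AnalyticOnNhd ℝ (fun y => α * W' (α * y + β)) Set.univ ∧
      (∀ y, HasDerivAt (fun y => W (α * y + β)) (α * W' (α * y + β)) y) ∧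
      (∀ y, HasDerivAt (fun y => α * W' (α * y + β))
        ((4 * a * y + b ^ 2 - 4 * a * c) * W (α * y + β)) y) := by
    intro W W' h1 h2 h3 h4
    have hl : AnalyticOnNhd ℝ (fun y : ℝ => α * y + β) Set.univ := by
      intro y _
      fun_prop
    have hd : ∀ y : ℝ, HasDerivAt (fun y : ℝ => α * y + β) α y := by
      intro y
      simpa using ((hasDerivAt_id y).const_mul α).add_const β
    refine ⟨fun y hy => (h1 _ (Set.mem_univ _)).comp (hl y hy), fun y hy => ?_, fun y => ?_,
      fun y => ?_⟩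
    · exact analyticAt_const.mul ((h2 _ (Set.mem_univ _)).comp (hl y hy))
    · have := (h3 (α * y + β)).comp y (hd y)
      exact this.congr_deriv (by ring)
    · have := ((h4 (α * y + β)).comp y (hd y)).const_mul α
      refine this.congr_deriv ?_
      rw [← hlin y]; ring
  obtain ⟨U, U', u1, u2, u3, u4, u5, u6⟩ := exists_sol 1 0
  obtain ⟨V, V', v1, v2, v3, v4, v5, v6⟩ := exists_sol 0 1
  obtain ⟨p1, p2, p3, p4⟩ := key U U' u1 u2 u3 u4
  obtain ⟨q1, q2, q3, q4⟩ := key V V' v1 v2 v3 v4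
  refine ⟨_, _, _, _, p1, p2, q1, q2, p3, p4, q3, q4, fun y => ?_, -β / α, ?_⟩
  rotate_left
  · have e : α * (-β / α) + β = 0 := by field_simp; ring
    simp only [e, u5, u6, v5, v6]
    exact ⟨trivial, by ring, trivial, by simpa using hα0⟩
  -- the Wronskian of `U` and `V`
  have hW : ∀ s, U s * V' s - U' s * V s = 1 := by
    intro s
    have hd : ∀ s, HasDerivAt (fun s => U s * V' s - U' s * V s) 0 s := by
      intro s
      refine (((u3 s).mul (v4 s)).sub ((u4 s).mul (v3 s))).congr_deriv ?_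
      ring
    have hconst := is_const_of_deriv_eq_zero (f := fun s => U s * V' s - U' s * V s)
      (fun s => (hd s).differentiableAt) (fun s => (hd s).deriv) s 0
    simp only [u5, u6, v5, v6] at hconst
    linarith
  have := hW (α * y + β)
  have e : U (α * y + β) * (α * V' (α * y + β)) - α * U' (α * y + β) * V (α * y + β) =
      α * (U (α * y + β) * V' (α * y + β) - U' (α * y + β) * V (α * y + β)) := by ring
  rw [e, this, mul_one]
  exact hα0

/-- The first integral. -/
noncomputable def H (a b : ℝ) (A A' B B' : ℝ → ℝ) (p : ℝ × ℝ) : ℝ :=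
  (A' p.2 + (2 * a * p.1 ^ 2 + b) * A p.2) ^ 2 /
    ((A' p.2 + (2 * a * p.1 ^ 2 + b) * A p.2) ^ 2 + (B' p.2 + (2 * a * p.1 ^ 2 + b) * B p.2) ^ 2)

/-- **Every even quartic Liénard system has a global analytic first integral.** For `a ≠ 0` and
`E(x) = a x⁴ + b x² + c`, the system `x' = y - E(x)`, `y' = -x` has a non-constant first integral
which is real-analytic on the whole plane.  In particular the even polynomial `x⁴` of degree `4`
refutes the non-existence of global analytic first integrals. -/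
theorem result : ∀ E : Polynomial ℝ, (∀ x, E.eval (-x) = E.eval x) → E.natDegree = 4 →
    ∃ H : ℝ × ℝ → ℝ, AnalyticOnNhd ℝ H Set.univ ∧ (∃ p q : ℝ × ℝ, H p ≠ H q) ∧
      ∀ p : ℝ × ℝ, fderiv ℝ H p (p.2 - E.eval p.1, -p.1) = 0 := by
  intro E heven hdeg
  -- the coefficients
  obtain ⟨a, b, c, ha, hE⟩ : ∃ a b c : ℝ, a ≠ 0 ∧ ∀ x, E.eval x = a * x ^ 4 + b * x ^ 2 + c := by
    have hx : ∀ x, E.eval x = E.coeff 0 + E.coeff 1 * x + E.coeff 2 * x ^ 2 + E.coeff 3 * x ^ 3 +
        E.coeff 4 * x ^ 4 := by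
      intro x
      rw [Polynomial.eval_eq_sum_range, hdeg]
      simp [Finset.sum_range_succ]
    refine ⟨E.coeff 4, E.coeff 2, E.coeff 0, ?_, ?_⟩
    · rw [← hdeg]
      have : E ≠ 0 := by rintro rfl; simp at hdeg
      exact Polynomial.leadingCoeff_ne_zero.2 this
    · have h1 := heven 1
      have h2 := heven 2
      rw [hx, hx] at h1 h2
      have e1 : E.coeff 1 = 0 := by linarith
      have e3 : E.coeff 3 = 0 := by linarith
      intro x
      rw [hx, e1, e3]; ring
  obtain ⟨A, A', B, B', hA, hA', hB, hB', dA, dA', dB, dB', hW, y0, i1, i2, i3, i4⟩ :=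
    exists_pair ha b c
  -- nonvanishing of the denominator
  have hden : ∀ x y : ℝ, (A' y + (2 * a * x ^ 2 + b) * A y) ^ 2 +
      (B' y + (2 * a * x ^ 2 + b) * B y) ^ 2 ≠ 0 := by
    intro x y h
    have h1 : A' y + (2 * a * x ^ 2 + b) * A y = 0 := by
      have : (A' y + (2 * a * x ^ 2 + b) * A y) ^ 2 = 0 := by
        nlinarith [sq_nonneg (A' y + (2 * a * x ^ 2 + b) * A y),
          sq_nonneg (B' y + (2 * a * x ^ 2 + b) * B y)]
      exact pow_eq_zero_iff two_ne_zero |>.1 this
    have h2 : B' y + (2 * a * x ^ 2 + b) * B y = 0 := by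
      have : (B' y + (2 * a * x ^ 2 + b) * B y) ^ 2 = 0 := by
        nlinarith [sq_nonneg (A' y + (2 * a * x ^ 2 + b) * A y),
          sq_nonneg (B' y + (2 * a * x ^ 2 + b) * B y)]
      exact pow_eq_zero_iff two_ne_zero |>.1 this
    apply hW y
    linear_combination A y * h2 - B y * h1
  have hAA : ∀ {f : ℝ → ℝ}, AnalyticOnNhd ℝ f Set.univ →
      AnalyticOnNhd ℝ (fun p : ℝ × ℝ => f p.2) Set.univ := by
    intro f hf p _
    exact AnalyticAt.comp (g := f) (f := Prod.snd) (hf _ (Set.mem_univ _)) analyticAt_snd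
  have hpoly : AnalyticOnNhd ℝ (fun p : ℝ × ℝ => 2 * a * p.1 ^ 2 + b) Set.univ := by
    intro p _
    have := analyticAt_fst (𝕜 := ℝ) (p := p)
    exact (analyticAt_const.mul (this.pow 2)).add analyticAt_const
  have hN : ∀ {f g : ℝ → ℝ}, AnalyticOnNhd ℝ f Set.univ → AnalyticOnNhd ℝ g Set.univ →
      AnalyticOnNhd ℝ (fun p : ℝ × ℝ => (f p.2 + (2 * a * p.1 ^ 2 + b) * g p.2) ^ 2) Set.univ := by
    intro f g hf hg
    exact ((hAA hf).add (hpoly.mul (hAA hg))).pow 2
  have hHa : AnalyticOnNhd ℝ (H a b A A' B B') Set.univ := by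
    intro p hp
    exact ((hN hA' hA) p hp).div (((hN hA' hA) p hp).add ((hN hB' hB) p hp)) (hden p.1 p.2)
  refine ⟨H a b A A' B B', hHa, ?_, ?_⟩
  · -- non-constant: three points on a horizontal line
    by_contra hcon
    push Not at hcon
    have hv : ∀ x : ℝ, H a b A A' B B' (x, y0) =
        (2 * a * x ^ 2 + b) ^ 2 / ((2 * a * x ^ 2 + b) ^ 2 + (B' y0) ^ 2) := by
      intro x
      simp only [H, i1, i2, i3]
      ring
    have hB0 : 0 < (B' y0) ^ 2 := by positivity
    have hsq : ∀ x : ℝ, (2 * a * x ^ 2 + b) ^ 2 = b ^ 2 := by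
      intro x
      have h1 := hcon (x, y0) (0, y0)
      rw [hv, hv, div_eq_div_iff (by positivity) (by positivity)] at h1
      have h2 : ((2 * a * x ^ 2 + b) ^ 2 - b ^ 2) * (B' y0) ^ 2 = 0 := by
        linear_combination h1
      have h3 := (mul_eq_zero.1 h2).resolve_right hB0.ne'
      linarith
    have h1 := hsq 1
    have h2 := hsq 2
    have h3 : a * (a + b) = 0 := by linear_combination h1 / 4
    have h4 : a * (4 * a + b) = 0 := by linear_combination h2 / 16
    have h5 := (mul_eq_zero.1 h3).resolve_left ha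
    have h6 := (mul_eq_zero.1 h4).resolve_left ha
    apply ha
    linarith
  · intro p
    obtain ⟨x, y⟩ := p
    set v : ℝ × ℝ := (y - E.eval x, -x) with hv
    set κ : ℝ := -x * (2 * a * x ^ 2 + b) with hκ
    have hdl : HasDerivAt (fun t : ℝ => (x, y) + t • v) v 0 := by
      simpa using ((hasDerivAt_id (0:ℝ)).smul_const v).const_add (x, y)
    have hHd : HasFDerivAt (H a b A A' B B') (fderiv ℝ (H a b A A' B B') (x, y)) (x, y) :=
      (hHa (x, y) (Set.mem_univ _)).differentiableAt.hasFDerivAt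
    have h1 : HasDerivAt (fun t : ℝ => H a b A A' B B' ((x, y) + t • v))
        (fderiv ℝ (H a b A A' B B') (x, y) v) 0 := by
      have hHd' : HasFDerivAt (H a b A A' B B') (fderiv ℝ (H a b A A' B B') (x, y))
          ((x, y) + (0:ℝ) • v) := by simpa using hHd
      exact hHd'.comp_hasDerivAt (0:ℝ) hdl
    -- derivatives of the building blocks along the line
    have hy1 : HasDerivAt (fun t : ℝ => y + t * (-x)) (-x) 0 := by
      simpa using ((hasDerivAt_id (0:ℝ)).mul_const (-x)).const_add y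
    have hx1 : HasDerivAt (fun t : ℝ => x + t * (y - E.eval x)) (y - E.eval x) 0 := by
      simpa using ((hasDerivAt_id (0:ℝ)).mul_const (y - E.eval x)).const_add x
    have hpol : HasDerivAt (fun t : ℝ => 2 * a * (x + t * (y - E.eval x)) ^ 2 + b)
        (2 * a * (2 * x * (y - E.eval x))) 0 := by
      have := ((hx1.pow 2).const_mul (2 * a)).add_const b
      refine this.congr_deriv ?_
      simp
    have hblock : ∀ f g : ℝ → ℝ, (∀ y, HasDerivAt f (g y) y) →
        (∀ y, HasDerivAt g ((4 * a * y + b ^ 2 - 4 * a * c) * f y) y) →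
        HasDerivAt (fun t : ℝ => g (y + t * (-x)) +
          (2 * a * (x + t * (y - E.eval x)) ^ 2 + b) * f (y + t * (-x)))
          (κ * (g y + (2 * a * x ^ 2 + b) * f y)) 0 := by
      intro f g hf hg
      have g1 : HasDerivAt (fun t : ℝ => g (y + t * (-x)))
          ((4 * a * y + b ^ 2 - 4 * a * c) * f y * (-x)) 0 := by
        have h2 : HasDerivAt g ((4 * a * y + b ^ 2 - 4 * a * c) * f y) (y + 0 * (-x)) := by
          simpa using hg y
        exact h2.comp (0:ℝ) hy1
      have f1 : HasDerivAt (fun t : ℝ => f (y + t * (-x))) (g y * (-x)) 0 := by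
        have h2 : HasDerivAt f (g y) (y + 0 * (-x)) := by simpa using hf y
        exact h2.comp (0:ℝ) hy1
      refine (g1.add (hpol.mul f1)).congr_deriv ?_
      simp only [zero_mul, add_zero]
      rw [hE, hκ]
      ring
    have hAt := hblock A A' dA dA'
    have hBt := hblock B B' dB dB'
    have h2 : HasDerivAt (fun t : ℝ => H a b A A' B B' ((x, y) + t • v)) 0 0 := by
      have hq := (hAt.pow 2).div ((hAt.pow 2).add (hBt.pow 2)) (by simpa using hden x y)
      refine (hq.congr_of_eventuallyEq (Eventually.of_forall fun t => ?_)).congr_deriv ?_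
      · simp [H, hv]
      · rw [div_eq_zero_iff]
        left
        simp only [zero_mul, add_zero, Nat.cast_ofNat, Pi.add_apply, Pi.pow_apply]
        ring
    exact h1.unique h2

end Pool.Agent.Results.MP_b09cb0_an.QuarticLienard
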